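import Mathlib

/-!
# The Arnold family: maps with a periodic orbit of a given long period, which is away from one of its points
-/

set_option autoImplicit false

open Filter Set Topology

namespace Pool.Agent.V11260.PR

/-- the Arnold family -/
noncomputable def G (σ κ x : ℝ) : ℝ := x + σ + κ * Real.cos (2 * Real.pi * x)

theorem G_add_int (σ κ x : ℝ) (n : ℤ) : G σ κ (x + n) = G σ κ x + n := by
  unfold G
  have : 2 * Real.pi * (x + n) = 2 * Real.pi * x + n * (2 * Real.pi) := by ring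
  rw [this, Real.cos_add_int_mul_two_pi]
  ring

theorem G_iter_add_int (σ κ : ℝ) (i : ℕ) (x : ℝ) (n : ℤ) :
    (G σ κ)^[i] (x + n) = (G σ κ)^[i] x + n := by
  induction i with
  | zero => rfl
  | succ i ih => rw [Function.iterate_succ_apply', ih, G_add_int, Function.iterate_succ_apply']

theorem G_lower {σ κ : ℝ} (hκ : 0 ≤ κ) (x : ℝ) : x + (σ - κ) ≤ G σ κ x := by
  unfold G
  have := Real.neg_one_le_cos (2 * Real.pi * x)
  nlinarith

/-- For `σ = κ` the orbit of `0` does not pass `1 / 2`. -/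
theorem G_stay {κ : ℝ} (hκ : 0 ≤ κ) (hκ1 : κ ≤ 1 / 16) (i : ℕ) :
    0 ≤ (G κ κ)^[i] 0 ∧ (G κ κ)^[i] 0 ≤ 1 / 2 := by
  induction i with
  | zero => constructor <;> norm_num
  | succ i ih =>
    obtain ⟨h1, h2⟩ := ih
    rw [Function.iterate_succ_apply']
    set x := (G κ κ)^[i] 0
    refine ⟨?_, ?_⟩
    · have := G_lower (σ := κ) hκ x
      linarith
    · unfold G
      have hpi := Real.pi_pos
      have hpi4 := Real.pi_le_four
      have h3 : Real.cos (2 * Real.pi * x) = 2 * Real.sin (Real.pi * (1 / 2 - x)) ^ 2 - 1 := by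
        have e1 : Real.pi * (1 / 2 - x) = Real.pi / 2 - Real.pi * x := by ring
        rw [e1, Real.sin_pi_div_two_sub]
        have e2 : 2 * Real.pi * x = 2 * (Real.pi * x) := by ring
        rw [e2, Real.cos_two_mul]
      have h4 : Real.sin (Real.pi * (1 / 2 - x)) ≤ Real.pi * (1 / 2 - x) :=
        Real.sin_le (mul_nonneg hpi.le (by linarith))
      have h5 : 0 ≤ Real.sin (Real.pi * (1 / 2 - x)) :=
        Real.sin_nonneg_of_nonneg_of_le_pi (mul_nonneg hpi.le (by linarith)) (by nlinarith)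
      have h6 : Real.sin (Real.pi * (1 / 2 - x)) ≤ 1 := Real.sin_le_one _
      have h7 : Real.sin (Real.pi * (1 / 2 - x)) ^ 2 ≤ Real.pi * (1 / 2 - x) := by nlinarith
      rw [h3]
      have h8 : κ * (2 * Real.sin (Real.pi * (1 / 2 - x)) ^ 2) ≤ (1 / 16) * (2 * (4 * (1 / 2 - x))) := by
        apply mul_le_mul hκ1 _ (by positivity) (by norm_num)
        nlinarith
      nlinarith

theorem G_cont (κ : ℝ) (i : ℕ) : Continuous fun σ => (G σ κ)^[i] 0 := by
  induction i with
  | zero => exact continuous_const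
  | succ i ih =>
    have : (fun σ => (G σ κ)^[i + 1] 0) = fun σ => (G σ κ)^[i] 0 + σ +
        κ * Real.cos (2 * Real.pi * (G σ κ)^[i] 0) := by
      funext σ
      rw [Function.iterate_succ_apply']
      rfl
    rw [this]
    fun_prop

theorem G_far {κ : ℝ} (hκ : 0 < κ) (i : ℕ) : i * κ ≤ (G (2 * κ) κ)^[i] 0 := by
  induction i with
  | zero => simp
  | succ i ih =>
    rw [Function.iterate_succ_apply']
    have := G_lower (σ := 2 * κ) hκ.le ((G (2 * κ) κ)^[i] 0)
    push_cast
    linarith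

/-- Periodic orbits of all long periods. -/
theorem circ {κ : ℝ} (hκ : 0 < κ) (hκ1 : κ ≤ 1 / 16) {M : ℕ} (hM : 1 / κ ≤ M) :
    ∃ σ, κ ≤ σ ∧ σ ≤ 2 * κ ∧ (∀ j : ℕ, (G σ κ)^[M * j] 0 = j) ∧
      ∀ i : ℕ, ¬ M ∣ i → ∀ n : ℤ, κ ≤ |(G σ κ)^[i] 0 - n| := by
  have hM0 : (0 : ℝ) < M := lt_of_lt_of_le (by positivity) hM
  have hM1 : 1 ≤ M := by
    have : 0 < M := by exact_mod_cast hM0
    exact this
  obtain ⟨σ, ⟨hσ1, hσ2⟩, hσ⟩ : (1 : ℝ) ∈ (fun σ => (G σ κ)^[M] 0) '' Icc κ (2 * κ) := by
    refine intermediate_value_Icc (by linarith) (G_cont κ M).continuousOn ⟨?_, ?_⟩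
    · have := (G_stay hκ.le hκ1 M).2
      show (G κ κ)^[M] 0 ≤ 1
      linarith
    · refine le_trans ?_ (G_far hκ M)
      rw [div_le_iff₀ hκ] at hM
      exact hM
  have hσ' : (G σ κ)^[M] 0 = 1 := hσ
  have hmono : ∀ x, x ≤ G σ κ x := fun x => by
    have := G_lower (σ := σ) hκ.le x
    linarith
  have hincr : Monotone fun i : ℕ => (G σ κ)^[i] 0 := by
    refine monotone_nat_of_le_succ fun i => ?_
    show (G σ κ)^[i] 0 ≤ (G σ κ)^[i + 1] 0
    rw [Function.iterate_succ_apply']
    exact hmono _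
  have hjj : ∀ j : ℕ, (G σ κ)^[M * j] 0 = j := by
    intro j
    induction j with
    | zero => simp
    | succ j ih =>
      have e1 : M * (j + 1) = M + M * j := by ring
      rw [e1, Function.iterate_add_apply, ih]
      have h1 := G_iter_add_int σ κ M 0 j
      rw [zero_add] at h1
      have h2 : ((j : ℤ) : ℝ) = (j : ℝ) := by push_cast; rfl
      rw [h2] at h1
      rw [h1, hσ']
      push_cast
      ring
  refine ⟨σ, hσ1, hσ2, hjj, ?_⟩
  have hlow : ∀ i : ℕ, 1 ≤ i → κ ≤ (G σ κ)^[i] 0 := by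
    intro i hi
    refine le_trans ?_ (hincr hi)
    show κ ≤ G σ κ 0
    unfold G
    rw [mul_zero, Real.cos_zero]
    linarith
  have hupp : ∀ i : ℕ, i < M → (G σ κ)^[i] 0 ≤ 1 - κ := by
    intro i hi
    have h1 : (G σ κ)^[i] 0 ≤ (G σ κ)^[M - 1] 0 := hincr (by omega)
    refine h1.trans ?_
    by_contra hcon
    push Not at hcon
    set x := (G σ κ)^[M - 1] 0 with hx
    have h2 : G σ κ x = 1 := by
      have e : (G σ κ)^[M - 1 + 1] 0 = G σ κ ((G σ κ)^[M - 1] 0) :=
        Function.iterate_succ_apply' _ _ _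
      have : M - 1 + 1 = M := by omega
      rw [this, hσ'] at e
      exact e.symm
    have hx1 : x ≤ 1 := by rw [← h2]; exact hmono x
    have hcos : 0 ≤ Real.cos (2 * Real.pi * x) := by
      have hpi := Real.pi_pos
      have h3 : Real.cos (2 * Real.pi * x) = Real.cos (2 * Real.pi * (1 - x)) := by
        have : 2 * Real.pi * (1 - x) = 2 * Real.pi - 2 * Real.pi * x := by ring
        rw [this, Real.cos_two_pi_sub]
      rw [h3]
      apply Real.cos_nonneg_of_neg_pi_div_two_le_of_le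
      · nlinarith
      · nlinarith
    have h4 : x + κ ≤ G σ κ x := by
      unfold G
      nlinarith
    linarith
  intro i hi n
  have hdm := Nat.div_add_mod i M
  have hmod : i % M ≠ 0 := fun h => hi (Nat.dvd_of_mod_eq_zero h)
  obtain ⟨d, hd⟩ : ∃ d : ℕ, d = i / M := ⟨_, rfl⟩
  rw [← hd] at hdm
  have e1 : (G σ κ)^[i] 0 = (G σ κ)^[i % M] 0 + (d : ℝ) := by
    conv_lhs => rw [← hdm, add_comm]
    rw [Function.iterate_add_apply, hjj]
    have h1 := G_iter_add_int σ κ (i % M) 0 (d : ℤ)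
    rw [zero_add] at h1
    have h2 : ((d : ℤ) : ℝ) = (d : ℝ) := by push_cast; rfl
    rw [h2] at h1
    exact h1
  have h1 := hlow (i % M) (by omega)
  have h2 := hupp (i % M) (Nat.mod_lt _ hM1)
  set x := (G σ κ)^[i % M] 0 with hx
  have e2 : (G σ κ)^[i] 0 - n = x - ((n - d : ℤ) : ℝ) := by
    rw [e1]
    push_cast
    ring
  rw [e2]
  set k : ℤ := n - d with hk
  rcases le_or_gt k 0 with h3 | h3
  · have h4 : (k : ℝ) ≤ 0 := by exact_mod_cast h3
    rw [abs_of_nonneg (by linarith)]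
    linarith
  · have h4 : (1 : ℝ) ≤ k := by exact_mod_cast h3
    rw [abs_of_nonpos (by linarith)]
    linarith

/-- the lift of the Arnold family to the `q`-fold covering -/
noncomputable def hh (q : ℕ) (σ κ x : ℝ) : ℝ := x + σ / q + κ / q * Real.cos (2 * Real.pi * q * x)

theorem hh_iter {q : ℕ} (hq : 1 ≤ q) (σ κ : ℝ) (i : ℕ) (x : ℝ) :
    (hh q σ κ)^[i] x = (G σ κ)^[i] (q * x) / q := by
  have hq0 : (q : ℝ) ≠ 0 := by
    have : q ≠ 0 := by omega
    exact_mod_cast this
  induction i with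
  | zero =>
    show x = q * x / q
    field_simp
  | succ i ih =>
    rw [Function.iterate_succ_apply', ih, Function.iterate_succ_apply']
    unfold hh G
    have e1 : 2 * Real.pi * (q : ℝ) * ((G σ κ)^[i] (q * x) / q) =
        2 * Real.pi * (G σ κ)^[i] (q * x) := by field_simp
    have e2 : (fun x => x + σ + κ * Real.cos (2 * Real.pi * x)) = G σ κ := rfl
    rw [e2, e1]
    field_simp

/-- The perturbed rotation. -/
noncomputable def gg (q s : ℕ) (p : ℤ) (σ κ x : ℝ) : ℝ := (hh q σ κ)^[s] x + p / q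

theorem circ2 {κ : ℝ} (hκ : 0 < κ) (hκ1 : κ ≤ 1 / 16) {M : ℕ} (hM : 1 / κ ≤ M) {q s : ℕ} {p l : ℤ}
    (hq : 1 ≤ q) (hl : l * q = p * M + s) (hc : IsCoprime l (M : ℤ)) :
    ∃ σ, κ ≤ σ ∧ σ ≤ 2 * κ ∧ (gg q s p σ κ)^[M] 0 = l ∧
      ∀ i : ℕ, 0 < i → i < M → ∀ n : ℤ, κ / q ≤ |(gg q s p σ κ)^[i] 0 - n| := by
  obtain ⟨σ, h1, h2, h3, h4⟩ := circ hκ hκ1 hM
  have hq0 : (0 : ℝ) < q := by
    have : 0 < q := by omega
    exact_mod_cast this
  have hit : ∀ i : ℕ, (gg q s p σ κ)^[i] 0 = ((G σ κ)^[s * i] 0 + i * p) / q := by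
    intro i
    induction i with
    | zero => simp
    | succ i ih =>
      rw [Function.iterate_succ_apply', ih]
      unfold gg
      rw [hh_iter hq]
      have e1 : (q : ℝ) * (((G σ κ)^[s * i] 0 + i * p) / q) =
          (G σ κ)^[s * i] 0 + ((i * p : ℤ) : ℝ) := by
        push_cast
        field_simp
      rw [e1, G_iter_add_int, ← Function.iterate_add_apply]
      have e2 : s + s * i = s * (i + 1) := by ring
      rw [e2]
      push_cast
      field_simp
      ring
  refine ⟨σ, h1, h2, ?_, ?_⟩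
  · rw [hit, mul_comm s M, h3, div_eq_iff hq0.ne']
    have h5 : ((l * q : ℤ) : ℝ) = ((p * M + s : ℤ) : ℝ) := by rw [hl]
    push_cast at h5
    linarith
  · intro i hi hiM n
    have e1 : (gg q s p σ κ)^[i] 0 - n =
        ((G σ κ)^[s * i] 0 - ((n * q - i * p : ℤ) : ℝ)) / q := by
      rw [hit]
      push_cast
      field_simp
      ring
    rw [e1, abs_div, abs_of_pos hq0]
    refine div_le_div_of_nonneg_right ?_ hq0.le
    by_cases hd : M ∣ s * i
    · obtain ⟨j, hj⟩ := hd
      rw [hj, h3]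
      have hne : (j : ℤ) - (n * q - i * p) ≠ 0 := by
        intro h
        have h5 : (l * i) * (q : ℤ) = (M * n) * q := by
          calc (l * i) * (q : ℤ) = i * (l * q) := by ring
            _ = i * p * M + s * i := by rw [hl]; ring
            _ = i * p * M + M * j := by
              have : ((s * i : ℕ) : ℤ) = ((M * j : ℕ) : ℤ) := by rw [hj]
              push_cast at this
              rw [this]
            _ = (M * n) * q := by
              have : (j : ℤ) = n * q - i * p := by linarith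
              rw [this]
              ring
        have hqz : (q : ℤ) ≠ 0 := by
          have : q ≠ 0 := by omega
          exact_mod_cast this
        have h6 : l * i = M * n := mul_right_cancel₀ hqz h5
        have h7 : (M : ℤ) ∣ i := by
          have h8 : (M : ℤ) ∣ l * i := ⟨n, h6⟩
          exact hc.symm.dvd_of_dvd_mul_left h8
        have h8 : M ∣ i := by exact_mod_cast h7
        have := Nat.le_of_dvd hi h8
        omega
      have h5 : (1 : ℤ) ≤ |(j : ℤ) - (n * q - i * p)| := Int.one_le_abs hne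
      have h6 : (1 : ℝ) ≤ |(j : ℝ) - ((n * q - i * p : ℤ) : ℝ)| := by
        have h7 : ((1 : ℤ) : ℝ) ≤ ((|(j : ℤ) - (n * q - i * p)| : ℤ) : ℝ) := by exact_mod_cast h5
        rw [Int.cast_abs] at h7
        push_cast at h7 ⊢
        exact h7
      linarith
    · exact h4 _ hd _

end Pool.Agent.V11260.PR
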