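import Mathlib
import Pool.Agent.V11260.PT.Defs
import Pool.Agent.TH382.HS.Fam
import Pool.Agent.W564.SC.Lib

/-!
# Families of diffeomorphisms given by cut-off flows
-/

set_option autoImplicit false
set_option linter.unusedSectionVars false

open scoped Manifold ContDiff Topology NNReal
open Filter Set Metric

universe u

namespace Pool.Agent.V11260.PR

open Pool.Agent.H718R2.G Pool.Agent.W564.SC Pool.Agent.TH80.CLX Pool.Agent.TH382.HS
  Pool.Agent.V11260.PT

section fam

variable {n : ℕ} {N : Type u} [TopologicalSpace N] [ChartedSpace (V n) N] {r : ℕ∞}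
  {E E' : Type} [NormedAddCommGroup E] [NormedSpace ℝ E] [NormedAddCommGroup E'] [NormedSpace ℝ E']

theorem fam_trans {H K : E → DiffM n N r} (hH : IsFam n N r H) (hK : IsFam n N r K) :
    IsFam n N r (fun e => (H e).trans (K e)) := by
  intro y
  have h1 : ContMDiffAt (𝓘(ℝ, E).prod (𝓡 n)) (𝓘(ℝ, E).prod (𝓡 n)) r
      (fun q : E × N => ((q.1, H q.1 q.2) : E × N)) ((0 : E), y) := contMDiffAt_fst.prodMk (hH y)
  exact ContMDiffAt.comp (g := fun q : E × N => K q.1 q.2)
    (f := fun q : E × N => ((q.1, H q.1 q.2) : E × N)) _ (hK (H 0 y)) h1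

theorem fam_const (F : DiffM n N r) : IsFam n N r (fun _ : E => F) := by
  intro y
  exact ContMDiffAt.comp (g := F) (f := fun q : E × N => q.2) _ F.contMDiff.contMDiffAt
    contMDiffAt_snd

theorem fam_linear {H : E' → DiffM n N r} (hH : IsFam n N r H) (L : E →L[ℝ] E') :
    IsFam n N r (fun e => H (L e)) := by
  intro y
  have h1 : ContMDiff (𝓘(ℝ, E).prod (𝓡 n)) (𝓘(ℝ, E').prod (𝓡 n)) r
      (fun q : E × N => ((L q.1, q.2) : E' × N)) :=
    (L.contDiff.contMDiff.comp contMDiff_fst).prodMk contMDiff_snd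
  have h2 := hH y
  have h3 : ContMDiffAt (𝓘(ℝ, E').prod (𝓡 n)) (𝓡 n) r (fun q : E' × N => H q.1 q.2)
      (L (0 : E), y) := by rw [map_zero]; exact h2
  exact ContMDiffAt.comp (g := fun q : E' × N => H q.1 q.2)
    (f := fun q : E × N => ((L q.1, q.2) : E' × N)) ((0 : E), y) h3 h1.contMDiffAt

/-- iterates of the members of a family -/
noncomputable def iter (H : E → DiffM n N r) : ℕ → E → DiffM n N r
  | 0 => fun _ => Diffeomorph.refl (𝓡 n) N r
  | s + 1 => fun e => (H e).trans (iter H s e)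

theorem fam_iter {H : E → DiffM n N r} (hH : IsFam n N r H) (s : ℕ) : IsFam n N r (iter H s) := by
  induction s with
  | zero => exact fam_const _
  | succ s ih => exact fam_trans hH ih

theorem iter_zero {H : E → DiffM n N r} (h0 : H 0 = Diffeomorph.refl (𝓡 n) N r) (s : ℕ) :
    iter H s 0 = Diffeomorph.refl (𝓡 n) N r := by
  induction s with
  | zero => rfl
  | succ s ih =>
    show (H 0).trans (iter H s 0) = _
    rw [ih, h0]
    ext y
    rfl

end fam

variable {n : ℕ} {N : Type u} [TopologicalSpace N] [T2Space N] [CompactSpace N]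
  [ChartedSpace (V n) N] [IsManifold (𝓡 n) ∞ N] {r : ℕ∞}

/-- The family `y ↦ ψ (ρ(y) t) y`. -/
theorem rho_flow {O : Set N} {ψ : ℝ → N → N} (hψ : IsFlow n N O ψ) {ρ : N → ℝ}
    (hρ : ContMDiff (𝓡 n) 𝓘(ℝ, ℝ) ∞ ρ) {K : Set N} (hK : IsCompact K) (hKO : K ⊆ O)
    (hρ0 : ∀ y ∈ O, y ∉ K → ρ y = 0) (r : ℕ∞) :
    ∃ (P : ℝ → DiffM n N r) (ε : ℝ), 0 < ε ∧ P 0 = Diffeomorph.refl (𝓡 n) N r ∧ IsFam n N r P ∧
      ∀ t, |t| < ε → (∀ y ∈ O, P t y = ψ (ρ y * t) y) ∧ ∀ y, y ∉ O → P t y = y := by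
  classical
  have hA : LAct 1 n N O (fun t w => ψ (t 0) w) :=
    { isOpen := hψ.isOpen
      maps := fun t w hw => hψ.maps _ w hw
      smooth := by
        have h1 : ContMDiff ((𝓡 1).prod (𝓡 n)) (𝓘(ℝ, ℝ).prod (𝓡 n)) ∞
            (fun p : V 1 × N => ((p.1 0, p.2) : ℝ × N)) := by
          refine ContMDiff.prodMk ?_ contMDiff_snd
          have h2 : ContDiff ℝ ∞ (fun t : V 1 => t 0) :=
            (EuclideanSpace.proj (𝕜 := ℝ) (0 : Fin 1)).contDiff
          exact h2.contMDiff.comp contMDiff_fst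
        exact hψ.smooth.comp (f := fun p : V 1 × N => ((p.1 0, p.2) : ℝ × N)) h1.contMDiffOn
          (fun p hp => ⟨mem_univ _, hp.2⟩)
      zero := fun w hw => hψ.zero w hw
      add := fun t t' w hw => hψ.add _ _ w hw }
  obtain ⟨H, ε, hε, hH0, hfam, hH⟩ := lact_fam' hA hρ K hK hK.isClosed hKO hρ0 r
    (Diffeomorph.refl (𝓡 n) N r)
  have hnorm : ∀ t : ℝ, ‖(EuclideanSpace.single 0 t : V 1)‖ = |t| := fun t => by
    rw [PiLp.norm_single, Real.norm_eq_abs]
  let L : ℝ →L[ℝ] V 1 := LinearMap.toContinuousLinearMap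
    { toFun := fun t => EuclideanSpace.single 0 t
      map_add' := fun a b => by
        ext i
        fin_cases i
        simp
      map_smul' := fun a b => by
        ext i
        fin_cases i
        simp }
  have hL : ∀ t, L t = EuclideanSpace.single 0 t := fun t => rfl
  refine ⟨fun t => H (L t), ε, hε, ?_, fam_linear hfam L, ?_⟩
  · show H (L 0) = _
    rw [map_zero, hH0]
  · intro t ht
    have h1 := hH (L t) (by rw [hL, hnorm]; exact ht)
    refine ⟨fun y hy => ?_, fun y hy => ?_⟩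
    · show H (L t) y = _
      rw [h1, if_pos hy]
      show ψ ((ρ y • L t) 0) y = _
      rw [hL]
      congr 1
    · show H (L t) y = _
      rw [h1, if_neg hy]
      rfl

end Pool.Agent.V11260.PR
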