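import Mathlib
import Pool.Agent.V11260.PT.Defs

/-!
# Compact invariant sets on which a diffeomorphism is the product of a homeomorphism with a rotation
-/

set_option autoImplicit false

open scoped Manifold ContDiff Topology
open Filter Set

universe u

namespace Pool.Agent.V11260.PR

open Pool.Agent.H718R2.G Pool.Agent.V11260.PT

/-- `C` is a compact set which has the period `p ≥ 1` under `F` (`F^p` maps `C` to `C`, and `F^i(C)` does
not meet `C` for `1 ≤ i < p`). It is invariant under the smooth flow `ψ`, defined near `C`, which has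
the period `1` on `C`; `a` is a smooth function which on `C` has values in the unit circle and satisfies
`a (ψ t y) = exp(2πit) a(y)`. (So `C` is the product of the compact set `X = C ∩ {a = 1}` with the
circle.) On `C` the map `F^p` commutes with the flow and satisfies `a (F^p y) = exp(2πiα) a(y)`. (So on
`C ≅ X × ℝ/ℤ` the map `F^p` is the product `f × R_α` of a map `f` of `X` with the rotation by `α`.)
Nothing is required of `F` outside of `C, F(C), …, F^(p-1)(C)`. -/
structure IsRot (n : ℕ) (N : Type u) [TopologicalSpace N] [ChartedSpace (V n) N] (F : N → N)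
    (C : Set N) (ψ : ℝ → N → N) (a : N → ℂ) (α : ℝ) (p : ℕ) : Prop where
  compact : IsCompact C
  flow : ∃ O : Set N, IsFlow n N O ψ ∧ C ⊆ O
  inv : ∀ t, ∀ y ∈ C, ψ t y ∈ C
  per : ∀ y ∈ C, ψ 1 y = y
  smooth : ContMDiff (𝓡 n) 𝓘(ℝ, ℂ) ∞ a
  norm : ∀ y ∈ C, ‖a y‖ = 1
  equiv : ∀ t : ℝ, ∀ y ∈ C, a (ψ t y) = Complex.exp (2 * Real.pi * Complex.I * t) * a y
  pos : 1 ≤ p
  maps : ∀ y ∈ C, F^[p] y ∈ C
  comm : ∀ t, ∀ y ∈ C, F^[p] (ψ t y) = ψ t (F^[p] y)
  rot : ∀ y ∈ C, a (F^[p] y) = Complex.exp (2 * Real.pi * Complex.I * α) * a y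
  dis : ∀ i, 1 ≤ i → i < p → ∀ y ∈ C, F^[i] y ∉ C

/-- `y` lies on such a set `C`, and its orbit under the flow is a nonwandering point of the map of
`X = C / ψ` given by `F^p`: arbitrarily close to `y` there are points `x ∈ C` and `ψ t (F^(pm)(x))`, for
some `m ≥ 1` and some `t`. -/
def OnRot (n : ℕ) (N : Type u) [TopologicalSpace N] [ChartedSpace (V n) N] (F : N → N)
    (y : N) : Prop :=
  ∃ (C : Set N) (ψ : ℝ → N → N) (a : N → ℂ) (α : ℝ) (p : ℕ), IsRot n N F C ψ a α p ∧ y ∈ C ∧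
    ∀ W ∈ 𝓝 y, ∃ m : ℕ, 1 ≤ m ∧ ∃ x ∈ C, x ∈ W ∧ ∃ t : ℝ, ψ t (F^[p * m] x) ∈ W

end Pool.Agent.V11260.PR
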