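import Mathlib
import Pool.Agent.V11260.PR.Defs
import Pool.Agent.W54.SC.C

/-!
# The level of a point
-/

set_option autoImplicit false
set_option linter.unusedSectionVars false

open scoped Manifold ContDiff Topology
open Filter Set

universe u

namespace Pool.Agent.V11260.PR

open Pool.Agent.H718R2.G Pool.Agent.V11260.PT

noncomputable def cis (x : ℝ) : ℂ := Complex.exp (2 * Real.pi * Complex.I * x)

theorem cis_add (x y : ℝ) : cis (x + y) = cis x * cis y := by
  unfold cis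
  rw [← Complex.exp_add]
  congr 1
  push_cast
  ring

theorem cis_zero : cis 0 = 1 := by
  unfold cis
  simp

theorem cis_int (n : ℤ) : cis n = 1 := by
  unfold cis
  rw [Complex.exp_eq_one_iff]
  exact ⟨n, by push_cast; ring⟩

theorem cis_eq_one {x : ℝ} (h : cis x = 1) : ∃ n : ℤ, x = n := by
  unfold cis at h
  rw [Complex.exp_eq_one_iff] at h
  obtain ⟨n, hn⟩ := h
  refine ⟨n, ?_⟩
  have hpi : (Real.pi : ℂ) ≠ 0 := by exact_mod_cast Real.pi_ne_zero
  have h1 : (2 * Real.pi * Complex.I) * ((x : ℂ) - n) = 0 := by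
    linear_combination hn
  rcases mul_eq_zero.1 h1 with h2 | h2
  · exact absurd h2 (by simp [hpi])
  · have h3 : (x : ℂ) = n := sub_eq_zero.1 h2
    exact_mod_cast h3

theorem norm_cis (x : ℝ) : ‖cis x‖ = 1 := by
  unfold cis
  have : 2 * Real.pi * Complex.I * (x : ℂ) = ((2 * Real.pi * x : ℝ) : ℂ) * Complex.I := by
    push_cast
    ring
  rw [this, Complex.norm_exp_ofReal_mul_I]

theorem cis_far {θ δ : ℝ} (h : ∀ n : ℤ, δ ≤ |θ - n|) : 4 * δ ≤ ‖cis θ - 1‖ := by
  set u : ℝ := θ - round θ with hu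
  have h1 : |u| ≤ 1 / 2 := abs_sub_round θ
  have h2 : cis θ = cis u := by
    have : θ = u + (round θ : ℤ) := by rw [hu]; ring
    rw [this, cis_add, cis_int, mul_one]
  have h3 : cis u = Complex.exp (Complex.I * ((2 * Real.pi * u : ℝ) : ℂ)) := by
    unfold cis
    congr 1
    push_cast
    ring
  rw [h2, h3, Complex.norm_exp_I_mul_ofReal_sub_one, Real.norm_eq_abs, abs_mul]
  have e1 : 2 * Real.pi * u / 2 = Real.pi * u := by ring
  have hpi := Real.pi_pos
  have h4 : |Real.pi * u| ≤ Real.pi / 2 := by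
    rw [abs_mul, abs_of_pos hpi]
    nlinarith
  have h5 := Real.mul_abs_le_abs_sin h4
  have h6 : 2 / Real.pi * |Real.pi * u| = 2 * |u| := by
    rw [abs_mul, abs_of_pos hpi]
    field_simp
  rw [h6] at h5
  have h7 := h (round θ)
  rw [← hu] at h7
  rw [e1, abs_of_pos (by norm_num : (0 : ℝ) < 2)]
  linarith

variable {n : ℕ} {N : Type u} [TopologicalSpace N] [T2Space N] [CompactSpace N]
  [ChartedSpace (V n) N] [IsManifold (𝓡 n) ∞ N] {F : N → N} {C : Set N} {ψ : ℝ → N → N} {a : N → ℂ}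
  {α : ℝ} {p : ℕ}

theorem IsRot.equiv' (h : IsRot n N F C ψ a α p) (t : ℝ) {y : N} (hy : y ∈ C) :
    a (ψ t y) = cis t * a y := h.equiv t y hy

theorem IsRot.rot' (h : IsRot n N F C ψ a α p) {y : N} (hy : y ∈ C) :
    a (F^[p] y) = cis α * a y := h.rot y hy

theorem IsRot.add (h : IsRot n N F C ψ a α p) (s t : ℝ) {y : N} (hy : y ∈ C) :
    ψ (s + t) y = ψ s (ψ t y) := by
  obtain ⟨O, hψ, hCO⟩ := h.flow
  exact hψ.add s t y (hCO hy)

theorem IsRot.zero (h : IsRot n N F C ψ a α p) {y : N} (hy : y ∈ C) : ψ 0 y = y := by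
  obtain ⟨O, hψ, hCO⟩ := h.flow
  exact hψ.zero y (hCO hy)

theorem IsRot.nat (h : IsRot n N F C ψ a α p) (k : ℕ) {y : N} (hy : y ∈ C) : ψ k y = y := by
  induction k with
  | zero => rw [Nat.cast_zero]; exact h.zero hy
  | succ k ih =>
    rw [Nat.cast_succ, h.add _ _ hy, h.per y hy, ih]

theorem IsRot.int (h : IsRot n N F C ψ a α p) (k : ℤ) {y : N} (hy : y ∈ C) : ψ k y = y := by
  obtain ⟨m, rfl | rfl⟩ := k.eq_nat_or_neg
  · have := h.nat m hy
    simpa using this
  · have h1 := h.nat m hy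
    have h2 := h.add (-(m : ℝ)) m hy
    rw [neg_add_cancel, h.zero hy, h1] at h2
    push_cast
    exact h2.symm

/-- the point of the orbit of `y` at the level of `z` -/
noncomputable def Lv (ψ : ℝ → N → N) (a : N → ℂ) (z y : N) : N :=
  ψ (-(Complex.arg (a y * (starRingEnd ℂ) (a z)) / (2 * Real.pi))) y

theorem Lv_mem (h : IsRot n N F C ψ a α p) {z y : N} (hy : y ∈ C) : Lv ψ a z y ∈ C :=
  h.inv _ _ hy

theorem a_Lv (h : IsRot n N F C ψ a α p) {z y : N} (hz : z ∈ C) (hy : y ∈ C) :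
    a (Lv ψ a z y) = a z := by
  unfold Lv
  rw [h.equiv' _ hy]
  set u : ℂ := a y * (starRingEnd ℂ) (a z) with hu
  have hu1 : ‖u‖ = 1 := by
    rw [hu, norm_mul, RCLike.norm_conj, h.norm y hy, h.norm z hz, mul_one]
  have h1 : cis (Complex.arg u / (2 * Real.pi)) = u := Pool.Agent.W54.SC.exp_arg2 u hu1
  have h2 : cis (-(Complex.arg u / (2 * Real.pi))) * u = 1 := by
    have h4 := cis_add (-(Complex.arg u / (2 * Real.pi))) (Complex.arg u / (2 * Real.pi))
    rw [neg_add_cancel, cis_zero, h1] at h4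
    exact h4.symm
  have h3 : a y = u * a z := by
    rw [hu, mul_assoc, mul_comm ((starRingEnd ℂ) (a z)), Pool.Agent.W54.SC.conj_mul_self _ (h.norm z hz),
      mul_one]
  rw [h3, ← mul_assoc, h2, one_mul]

theorem Lv_unique (h : IsRot n N F C ψ a α p) {z w : N} (hz : z ∈ C) (hw : w ∈ C) {x : ℝ}
    (hx : a (ψ x w) = a z) : ψ x w = Lv ψ a z w := by
  have h1 := a_Lv h hz hw
  unfold Lv at h1 ⊢
  set τ := -(Complex.arg (a w * (starRingEnd ℂ) (a z)) / (2 * Real.pi)) with hτ
  rw [h.equiv' _ hw] at hx h1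
  have haw : a w ≠ 0 := by
    intro h0
    have := h.norm w hw
    rw [h0, norm_zero] at this
    exact zero_ne_one this
  have h2 : cis x = cis τ := mul_right_cancel₀ haw (hx.trans h1.symm)
  have h3 : cis (x - τ) = 1 := by
    have h4 : cis (x - τ) * cis τ = cis τ := by
      rw [← cis_add, sub_add_cancel, h2]
    have h5 : cis τ ≠ 0 := by
      unfold cis
      exact Complex.exp_ne_zero _
    exact mul_right_cancel₀ h5 (by rw [h4, one_mul])
  obtain ⟨k, hk⟩ := cis_eq_one h3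
  have h6 : x = τ + k := by linarith
  rw [h6, h.add _ _ hw, h.int k hw]

theorem Lv_tendsto (h : IsRot n N F C ψ a α p) {z : N} (hz : z ∈ C) :
    Tendsto (Lv ψ a z) (𝓝 z) (𝓝 z) := by
  obtain ⟨O, hψ, hCO⟩ := h.flow
  have hc : ContinuousAt (fun q : ℝ × N => ψ q.1 q.2) ((0 : ℝ), z) :=
    (hψ.smooth.contMDiffAt ((isOpen_univ.prod hψ.isOpen).mem_nhds ⟨mem_univ _, hCO hz⟩)).continuousAt
  have ha : Continuous a := h.smooth.continuous
  have h0 : a z * (starRingEnd ℂ) (a z) = 1 := Pool.Agent.W54.SC.conj_mul_self _ (h.norm z hz)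
  have hτ : ContinuousAt (fun y => -(Complex.arg (a y * (starRingEnd ℂ) (a z)) / (2 * Real.pi))) z := by
    refine ContinuousAt.neg (ContinuousAt.div_const ?_ _)
    have h1 : ContinuousAt Complex.arg (a z * (starRingEnd ℂ) (a z)) := by
      rw [h0]
      exact Complex.continuousAt_arg Complex.one_mem_slitPlane
    have h2 : ContinuousAt (fun y => a y * (starRingEnd ℂ) (a z)) z :=
      (ha.mul continuous_const).continuousAt
    exact ContinuousAt.comp (f := fun y => a y * (starRingEnd ℂ) (a z)) (g := Complex.arg) h1 h2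
  have h0' : -(Complex.arg (a z * (starRingEnd ℂ) (a z)) / (2 * Real.pi)) = 0 := by
    rw [h0, Complex.arg_one, zero_div, neg_zero]
  have hc' : ContinuousAt (fun q : ℝ × N => ψ q.1 q.2)
      (-(Complex.arg (a z * (starRingEnd ℂ) (a z)) / (2 * Real.pi)), z) := by rw [h0']; exact hc
  have h3 : ContinuousAt (Lv ψ a z) z :=
    ContinuousAt.comp (g := fun q : ℝ × N => ψ q.1 q.2)
      (f := fun y => (-(Complex.arg (a y * (starRingEnd ℂ) (a z)) / (2 * Real.pi)), y))
      hc' (hτ.prodMk continuousAt_id)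
  have h4 : Lv ψ a z z = z := by
    unfold Lv
    rw [h0', h.zero hz]
  have h5 := h3.tendsto
  rwa [h4] at h5

end Pool.Agent.V11260.PR
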