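import Mathlib

/-!
# Fractions close to a given number and adapted to a given period
-/

set_option autoImplicit false

open Finset

namespace Pool.Agent.V11260.PR

theorem near (α ε : ℝ) (hε : 0 < ε) (π : ℕ) (hπ : 1 / ε < π) (p : ℤ)
    (hp : p = ⌊α * π⌋ ∨ p = ⌊α * π⌋ + 1) : |(p : ℝ) / π - α| < ε := by
  have hπ0 : (0 : ℝ) < π := lt_trans (by positivity) hπ
  have h1 := Int.floor_le (α * π)
  have h2 := Int.lt_floor_add_one (α * π)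
  have h3 : |(p : ℝ) - α * π| ≤ 1 := by
    rcases hp with h | h
    · rw [h, abs_le]
      constructor <;> linarith
    · rw [h, abs_le]
      push_cast
      constructor <;> linarith
  have h4 : (p : ℝ) / π - α = ((p : ℝ) - α * π) / π := by field_simp
  rw [h4, abs_div, abs_of_pos hπ0]
  calc |(p : ℝ) - α * π| / π ≤ 1 / π := by gcongr
    _ < ε := by
      rw [div_lt_iff₀ hπ0]
      rw [div_lt_iff₀ hε] at hπ
      linarith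

theorem caseA (α : ℝ) (π M : ℕ) (hπ : π.Prime) (hM : π ∣ M) :
    ∃ p l : ℤ, (p = ⌊α * π⌋ ∨ p = ⌊α * π⌋ + 1) ∧ l * π = p * M + π ∧ IsCoprime l (M : ℤ) := by
  obtain ⟨m, rfl⟩ := hM
  have hpr : Prime (π : ℤ) := Nat.prime_iff_prime_int.1 hπ
  obtain ⟨p, hp, hnd⟩ : ∃ p : ℤ, (p = ⌊α * π⌋ ∨ p = ⌊α * π⌋ + 1) ∧ ¬ (π : ℤ) ∣ p * m + 1 := by
    by_contra hcon
    push Not at hcon
    have h1 := hcon _ (Or.inl rfl)
    have h2 := hcon _ (Or.inr rfl)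
    have h3 : (π : ℤ) ∣ m := by
      have h4 := dvd_sub h2 h1
      have h5 : (⌊α * π⌋ + 1) * (m : ℤ) + 1 - (⌊α * π⌋ * m + 1) = m := by ring
      rwa [h5] at h4
    have h6 : (π : ℤ) ∣ 1 := by
      have h7 := dvd_sub h1 (h3.mul_left ⌊α * π⌋)
      have h8 : ⌊α * (π : ℝ)⌋ * (m : ℤ) + 1 - ⌊α * (π : ℝ)⌋ * m = 1 := by ring
      rwa [h8] at h7
    exact hpr.not_isUnit (isUnit_of_dvd_one h6)
  refine ⟨p, p * m + 1, hp, by push_cast; ring, ?_⟩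
  push_cast
  refine IsCoprime.mul_right ?_ ?_
  · exact ((Prime.coprime_iff_not_dvd hpr).2 hnd).symm
  · exact ⟨1, -p, by ring⟩

theorem caseB (α : ℝ) (π₁ π₂ : ℕ) (hπ₁ : π₁.Prime) (hπ₂ : π₂.Prime) (g : (ZMod π₁)ˣ)
    (hg : ∀ x, x ∈ Subgroup.zpowers g) (h2 : (π₂ : ZMod π₁) = g) (M : ℕ) (hM₁ : ¬ π₁ ∣ M)
    (hM₂ : ¬ π₂ ∣ M) :
    ∃ (p l : ℤ) (j : ℕ), (p = ⌊α * π₁⌋ ∨ p = ⌊α * π₁⌋ + 1) ∧ j < orderOf g ∧
      l * π₁ = p * M + (π₂ ^ j : ℕ) ∧ IsCoprime l (M : ℤ) := by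
  have : Fact π₁.Prime := ⟨hπ₁⟩
  have hpr : Prime (π₁ : ℤ) := Nat.prime_iff_prime_int.1 hπ₁
  obtain ⟨p, hp, hnd⟩ : ∃ p : ℤ, (p = ⌊α * π₁⌋ ∨ p = ⌊α * π₁⌋ + 1) ∧ ¬ (π₁ : ℤ) ∣ p := by
    by_contra hcon
    push Not at hcon
    have h1 := hcon _ (Or.inl rfl)
    have h2 := hcon _ (Or.inr rfl)
    have h3 := dvd_sub h2 h1
    rw [add_sub_cancel_left] at h3
    exact hpr.not_isUnit (isUnit_of_dvd_one h3)
  have hu : (-(p * M : ℤ) : ZMod π₁) ≠ 0 := by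
    rw [neg_ne_zero]
    intro h
    have h4 : ((p * M : ℤ) : ZMod π₁) = 0 := by push_cast at h ⊢; exact h
    rw [ZMod.intCast_zmod_eq_zero_iff_dvd] at h4
    rcases hpr.dvd_or_dvd h4 with h5 | h5
    · exact hnd h5
    · exact hM₁ (by exact_mod_cast h5)
  obtain ⟨u, hu'⟩ := isUnit_iff_ne_zero.2 hu
  have h3 := mem_zpowers_iff_mem_range_orderOf.1 (hg u)
  simp only [Finset.mem_image, Finset.mem_range] at h3
  obtain ⟨j, hj, hju⟩ := h3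
  have h4 : (π₂ : ZMod π₁) ^ j = (-(p * M : ℤ) : ZMod π₁) := by
    rw [h2, ← hu', ← hju]
    push_cast
    rfl
  have h5 : (((p * M + (π₂ ^ j : ℕ) : ℤ)) : ZMod π₁) = 0 := by
    push_cast
    rw [h4]
    push_cast
    ring
  rw [ZMod.intCast_zmod_eq_zero_iff_dvd] at h5
  obtain ⟨l, hl⟩ := h5
  have hcop : IsCoprime ((π₂ ^ j : ℕ) : ℤ) (M : ℤ) := by
    rw [Nat.isCoprime_iff_coprime]
    exact Nat.Coprime.pow_left _ ((Nat.Prime.coprime_iff_not_dvd hπ₂).2 hM₂)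
  refine ⟨p, l, j, hp, hj, by rw [hl]; ring, ?_⟩
  obtain ⟨a, b, hab⟩ := hcop
  refine ⟨a * π₁, b - a * p, ?_⟩
  have h6 : ((π₂ ^ j : ℕ) : ℤ) = π₁ * l - p * M := by rw [← hl]; ring
  rw [h6] at hab
  linear_combination hab

/-- For every `M ≥ 1` there are a fraction `p / q` close to `α` and a positive number `s`, with `q` and `s`
bounded, such that `p / q + s / (q M) = l / M` is a reduced fraction with denominator `M`. -/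
theorem nt (α ε : ℝ) (hε : 0 < ε) : ∃ B : ℕ, ∀ M : ℕ, 1 ≤ M → ∃ (q s : ℕ) (p l : ℤ), 1 ≤ q ∧ q ≤ B ∧
    1 ≤ s ∧ s ≤ B ∧ |p| ≤ B ∧ |(p : ℝ) / q - α| < ε ∧ l * q = p * M + s ∧ IsCoprime l (M : ℤ) := by
  obtain ⟨m0, hm0⟩ := exists_nat_gt (1 / ε)
  obtain ⟨π₁, hπ₁m, hπ₁⟩ := Nat.exists_infinite_primes (m0 + 1)
  have : Fact π₁.Prime := ⟨hπ₁⟩
  obtain ⟨g, hg⟩ := IsCyclic.exists_generator (α := (ZMod π₁)ˣ)
  obtain ⟨π₂, hπ₂m, hπ₂, h2⟩ := Nat.forall_exists_prime_gt_and_eq_mod (q := π₁) g.isUnit m0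
  have hε₁ : 1 / ε < (π₁ : ℝ) := hm0.trans (by exact_mod_cast hπ₁m)
  have hε₂ : 1 / ε < (π₂ : ℝ) := hm0.trans (by exact_mod_cast hπ₂m)
  set B : ℕ := π₁ + π₂ + π₂ ^ (orderOf g) + (⌊α * π₁⌋.natAbs + 1) + (⌊α * π₂⌋.natAbs + 1) with hB
  have hpB : ∀ p : ℤ, (p = ⌊α * π₁⌋ ∨ p = ⌊α * π₁⌋ + 1) ∨ (p = ⌊α * π₂⌋ ∨ p = ⌊α * π₂⌋ + 1) →
      |p| ≤ B := by
    intro p hp
    have h3 : (B : ℤ) = π₁ + π₂ + (π₂ ^ (orderOf g) : ℕ) + (|⌊α * π₁⌋| + 1) + (|⌊α * π₂⌋| + 1) := by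
      rw [hB]
      push_cast
      rfl
    have h4 : (0 : ℤ) ≤ (π₂ ^ (orderOf g) : ℕ) := Int.natCast_nonneg _
    have h5 := abs_nonneg ⌊α * π₁⌋
    have h6 := abs_nonneg ⌊α * π₂⌋
    have h7 : (0 : ℤ) ≤ π₁ := Int.natCast_nonneg _
    have h8 : (0 : ℤ) ≤ π₂ := Int.natCast_nonneg _
    rw [h3]
    rcases hp with (h | h) | (h | h)
    · rw [h]; linarith
    · rw [h]
      have := abs_add_le ⌊α * (π₁ : ℝ)⌋ 1
      rw [abs_one] at this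
      linarith
    · rw [h]; linarith
    · rw [h]
      have := abs_add_le ⌊α * (π₂ : ℝ)⌋ 1
      rw [abs_one] at this
      linarith
  refine ⟨B, fun M hM => ?_⟩
  by_cases hM₁ : π₁ ∣ M
  · obtain ⟨p, l, hp, hl, hc⟩ := caseA α π₁ M hπ₁ hM₁
    exact ⟨π₁, π₁, p, l, hπ₁.one_lt.le, by omega, hπ₁.one_lt.le, by omega, hpB p (Or.inl hp),
      near α ε hε π₁ hε₁ p hp, hl, hc⟩
  by_cases hM₂ : π₂ ∣ M
  · obtain ⟨p, l, hp, hl, hc⟩ := caseA α π₂ M hπ₂ hM₂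
    exact ⟨π₂, π₂, p, l, hπ₂.one_lt.le, by omega, hπ₂.one_lt.le, by omega, hpB p (Or.inr hp),
      near α ε hε π₂ hε₂ p hp, hl, hc⟩
  · obtain ⟨p, l, j, hp, hj, hl, hc⟩ := caseB α π₁ π₂ hπ₁ hπ₂ g hg h2 M hM₁ hM₂
    refine ⟨π₁, π₂ ^ j, p, l, hπ₁.one_lt.le, by omega, Nat.one_le_pow _ _ hπ₂.pos, ?_,
      hpB p (Or.inl hp), near α ε hε π₁ hε₁ p hp, hl, hc⟩
    have : π₂ ^ j ≤ π₂ ^ orderOf g := Nat.pow_le_pow_right hπ₂.pos hj.le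
    omega

end Pool.Agent.V11260.PR
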