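import Mathlib
import Pool.Agent.V11260.PR.NT
import Pool.Agent.V11260.PR.Circle
import Pool.Agent.V11260.PR.Fam
import Pool.Agent.V11260.PR.Level
import Pool.Agent.TH80.CLX.Fam
import Pool.Agent.TH382.HS.Limit

/-!
# The closing lemma at points of products of homeomorphisms with rotations
-/

set_option autoImplicit false
set_option linter.unusedSectionVars false

open scoped Manifold ContDiff Topology NNReal
open Filter Set Metric

universe u

namespace Pool.Agent.V11260.PR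

open Pool.Agent.H718R2.G Pool.Agent.W564.SC Pool.Agent.TH382.QC Pool.Agent.TH80.CLX
  Pool.Agent.TH382.HS Pool.Agent.V11260.PT

variable {n : ℕ} {N : Type u} [TopologicalSpace N] [T2Space N] [CompactSpace N]
  [ChartedSpace (V n) N] [IsManifold (𝓡 n) ∞ N] {r : ℕ∞}

theorem IsRot.mapsi {F : N → N} {C : Set N} {ψ : ℝ → N → N} {a : N → ℂ} {α : ℝ} {P : ℕ}
    (hC : IsRot n N F C ψ a α P) (i : ℕ) {w : N} (hw : w ∈ C) : F^[P * i] w ∈ C := by
  induction i generalizing w with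
  | zero => exact hw
  | succ i ih =>
    rw [Nat.mul_succ, add_comm, Function.iterate_add_apply]
    exact hC.maps _ (ih hw)

theorem IsRot.commi {F : N → N} {C : Set N} {ψ : ℝ → N → N} {a : N → ℂ} {α : ℝ} {P : ℕ}
    (hC : IsRot n N F C ψ a α P) (i : ℕ) (x : ℝ) {w : N} (hw : w ∈ C) :
    F^[P * i] (ψ x w) = ψ x (F^[P * i] w) := by
  induction i generalizing x w with
  | zero => rfl
  | succ i ih =>
    rw [Nat.mul_succ, add_comm, Function.iterate_add_apply, ih x hw,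
      Function.iterate_add_apply, hC.comm _ _ (hC.mapsi i hw)]

/-- Long return times. -/
theorem ret {F : N → N} (hF : Continuous F) {C : Set N} {ψ : ℝ → N → N} {a : N → ℂ} {α : ℝ} {P : ℕ}
    (hC : IsRot n N F C ψ a α P) {z : N} (hz : z ∈ C)
    (hNW : ∀ W ∈ 𝓝 z, ∃ m : ℕ, 1 ≤ m ∧ ∃ x ∈ C, x ∈ W ∧ ∃ t : ℝ, ψ t (F^[P * m] x) ∈ W)
    {W : Set N} (hW : W ∈ 𝓝 z) (M0 : ℕ) :
    ∃ M : ℕ, M0 ≤ M ∧ 1 ≤ M ∧ ∃ x ∈ C, x ∈ W ∧ ∃ t : ℝ, ψ t (F^[P * M] x) ∈ W := by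
  by_cases hb : ∃ b : ℕ, 1 ≤ b ∧ ∃ t : ℝ, F^[P * b] z = ψ t z
  · obtain ⟨b, hb1, t, hbt⟩ := hb
    have h1 : ∀ j : ℕ, F^[P * (b * j)] z = ψ (j * t) z := by
      intro j
      induction j with
      | zero =>
        show z = ψ ((0 : ℕ) * t) z
        rw [Nat.cast_zero, zero_mul, hC.zero hz]
      | succ j ih =>
        have e1 : P * (b * (j + 1)) = P * b + P * (b * j) := by ring
        rw [e1, Function.iterate_add_apply, ih, hC.commi b _ hz, hbt, ← hC.add _ _ hz]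
        congr 1
        push_cast
        ring
    have hpos : 1 ≤ b * (M0 + 1) := Nat.mul_pos hb1 (by omega)
    refine ⟨b * (M0 + 1), ?_, hpos, z, hz, mem_of_mem_nhds hW, -(((M0 + 1 : ℕ) : ℝ) * t), ?_⟩
    · calc M0 ≤ 1 * (M0 + 1) := by omega
        _ ≤ b * (M0 + 1) := Nat.mul_le_mul_right _ hb1
    · rw [h1, ← hC.add _ _ hz, neg_add_cancel, hC.zero hz]
      exact mem_of_mem_nhds hW
  · push Not at hb
    obtain ⟨O, hψ, hCO⟩ := hC.flow
    have hsep : ∀ b : ℕ, 1 ≤ b → ∃ A ∈ 𝓝 z, ∀ y ∈ C, y ∈ A → ∀ t : ℝ, ψ t (F^[P * b] y) ∉ A := by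
      intro b hb1
      have h1 : ∀ᶠ x : N × N in 𝓝 (z, z), ∀ t ∈ Icc (0 : ℝ) 1, ψ t (F^[P * b] x.1) ≠ x.2 := by
        refine isCompact_Icc.eventually_forall_of_forall_eventually ?_
        intro t _
        have hc : ContinuousAt (fun q : ℝ × N => ψ q.1 q.2) (t, F^[P * b] z) :=
          (hψ.smooth.contMDiffAt ((isOpen_univ.prod hψ.isOpen).mem_nhds
            ⟨mem_univ _, hCO (hC.mapsi b hz)⟩)).continuousAt
        have hFb : Continuous (F^[P * b]) := hF.iterate _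
        have h2 : ContinuousAt (fun q : (N × N) × ℝ => (q.2, F^[P * b] q.1.1)) ((z, z), t) :=
          (continuous_snd.prodMk (hFb.comp (continuous_fst.comp continuous_fst))).continuousAt
        have h3 : ContinuousAt (fun q : (N × N) × ℝ => ψ q.2 (F^[P * b] q.1.1)) ((z, z), t) :=
          ContinuousAt.comp (g := fun q : ℝ × N => ψ q.1 q.2)
            (f := fun q : (N × N) × ℝ => (q.2, F^[P * b] q.1.1)) hc h2
        have h4 : ContinuousAt (fun q : (N × N) × ℝ => q.1.2) ((z, z), t) :=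
          (continuous_snd.comp continuous_fst).continuousAt
        have h5 : (ψ t (F^[P * b] z), z) ∈ (diagonal N)ᶜ := by
          intro h6
          have h7 : ψ t (F^[P * b] z) = z := h6
          apply hb b hb1 (-t)
          have h8 := hC.add (-t) t (hC.mapsi b hz)
          rw [neg_add_cancel, hC.zero (hC.mapsi b hz), h7] at h8
          exact h8
        have h9 := (h3.prodMk h4).eventually (isClosed_diagonal.isOpen_compl.mem_nhds h5)
        filter_upwards [h9] with q hq hcon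
        exact hq hcon
      rw [nhds_prod_eq] at h1
      obtain ⟨A, hA, hA'⟩ := (Filter.eventually_prod_self_iff
        (r := fun y w : N => ∀ t ∈ Icc (0 : ℝ) 1, ψ t (F^[P * b] y) ≠ w)).1 h1
      refine ⟨A, hA, fun y hy hyA t hcon => ?_⟩
      have hyC := hC.mapsi b hy
      have h5 : ψ t (F^[P * b] y) = ψ (Int.fract t) (F^[P * b] y) := by
        have h6 : t = Int.fract t + ((⌊t⌋ : ℤ) : ℝ) := (Int.fract_add_floor t).symm
        conv_lhs => rw [h6]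
        rw [hC.add _ _ hyC, hC.int _ hyC]
      rw [h5] at hcon
      exact hA' y hyA _ hcon (Int.fract t) ⟨Int.fract_nonneg t, (Int.fract_lt_one t).le⟩ rfl
    choose! A hA hA' using hsep
    obtain ⟨m, hm, x, hx, hx1, t, hx2⟩ := hNW (W ∩ ⋂ b ∈ Finset.Ico 1 M0, A b)
      (inter_mem hW ((Filter.biInter_finset_mem _).2 fun b hb' => hA b (Finset.mem_Ico.1 hb').1))
    refine ⟨m, ?_, hm, x, hx, hx1.1, t, hx2.1⟩
    by_contra hcon
    push Not at hcon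
    have hmem : m ∈ Finset.Ico 1 M0 := Finset.mem_Ico.2 ⟨hm, hcon⟩
    have h7 := hx1.2
    have h8 := hx2.2
    simp only [mem_iInter] at h7 h8
    exact hA' m hm x hx (h7 m hmem) t (h8 m hmem)

/-- Choice of the fraction. -/
theorem choice {F : N → N} {C : Set N} {ψ : ℝ → N → N} {P : ℕ} {z : N}
    (hret : ∀ W ∈ 𝓝 z, ∀ M0 : ℕ, ∃ M : ℕ, M0 ≤ M ∧ 1 ≤ M ∧ ∃ x ∈ C, x ∈ W ∧
      ∃ t : ℝ, ψ t (F^[P * M] x) ∈ W)
    (α ε : ℝ) (hε : 0 < ε) :
    ∃ (q s : ℕ) (p : ℤ), 1 ≤ q ∧ 1 ≤ s ∧ |(p : ℝ) / q - α| < ε ∧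
      ∀ W ∈ 𝓝 z, ∀ M0 : ℕ, ∃ M : ℕ, M0 ≤ M ∧ 1 ≤ M ∧ (∃ l : ℤ, l * q = p * M + s ∧
        IsCoprime l (M : ℤ)) ∧ ∃ x ∈ C, x ∈ W ∧ ∃ t : ℝ, ψ t (F^[P * M] x) ∈ W := by
  obtain ⟨B, hB⟩ := nt α ε hε
  by_contra hcon
  push Not at hcon
  have h1 : ∀ x : ℕ × ℕ × ℤ, ∃ W ∈ 𝓝 z, ∃ M0 : ℕ, 1 ≤ x.1 → 1 ≤ x.2.1 →
      |(x.2.2 : ℝ) / x.1 - α| < ε → ∀ M : ℕ, M0 ≤ M → 1 ≤ M → (∃ l : ℤ, l * x.1 = x.2.2 * M + x.2.1 ∧
        IsCoprime l (M : ℤ)) → ∀ y ∈ C, y ∈ W → ∀ t : ℝ, ψ t (F^[P * M] y) ∉ W := by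
    intro x
    by_cases hx : 1 ≤ x.1 ∧ 1 ≤ x.2.1 ∧ |(x.2.2 : ℝ) / x.1 - α| < ε
    · obtain ⟨W, hW, M0, hM0⟩ := hcon x.1 x.2.1 x.2.2 hx.1 hx.2.1 hx.2.2
      exact ⟨W, hW, M0, fun _ _ _ M h2 h3 ⟨l, h4, h5⟩ y hy hyW => hM0 M h2 h3 ⟨l, h4, h5⟩ y hy hyW⟩
    · exact ⟨univ, univ_mem, 0, fun h2 h3 h4 => absurd ⟨h2, h3, h4⟩ hx⟩
  choose W hW M0 hWM using h1
  set S : Finset (ℕ × ℕ × ℤ) := (Finset.range (B + 1)) ×ˢ ((Finset.range (B + 1)) ×ˢ
    (Finset.Icc (-(B : ℤ)) B)) with hS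
  obtain ⟨M, hM1, hM2, y, hy, hy1, τ, hy2⟩ := hret (⋂ x ∈ S, W x)
    ((Filter.biInter_finset_mem S).2 fun x _ => hW x) (S.sup M0)
  obtain ⟨q, s, p, l, hq1, hq2, hs1, hs2, hp, hpq, hl, hc⟩ := hB M hM2
  have hx : ((q, s, p) : ℕ × ℕ × ℤ) ∈ S := by
    rw [hS]
    simp only [Finset.mem_product, Finset.mem_range, Finset.mem_Icc]
    rw [abs_le] at hp
    exact ⟨by omega, by omega, hp.1, hp.2⟩
  simp only [mem_iInter] at hy1 hy2
  exact hWM (q, s, p) hq1 hs1 hpq M ((Finset.le_sup hx).trans hM1) hM2 ⟨l, hl, hc⟩ y hy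
    (hy1 _ hx) τ (hy2 _ hx)

/-- The closing lemma at nonwandering points of compact sets on which `F^p` is a product with a
rotation. -/
theorem closable_rot (hr : 1 ≤ r) (F : DiffM n N r) (z : N) (h : OnRot n N F z) :
    ClosableAt n N r F z := by
  classical
  obtain ⟨C, ψ, a, α, P, hC, hz, hNW⟩ := h
  intro U hU hFU
  obtain ⟨O, hψ, hCO⟩ := hC.flow
  have hFc : ∀ i : ℕ, Continuous (F^[i]) := fun i => F.continuous.iterate i
  have hret : ∀ W ∈ 𝓝 z, ∀ M0 : ℕ, ∃ M : ℕ, M0 ≤ M ∧ 1 ≤ M ∧ ∃ x ∈ C, x ∈ W ∧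
      ∃ t : ℝ, ψ t (F^[P * M] x) ∈ W :=
    fun W hW M0 => ret F.continuous hC hz hNW hW M0
  -- the other images of `C`
  obtain ⟨D, hDd⟩ : ∃ D : Set N, D = ⋃ i ∈ Finset.Ico 1 P, F^[i] '' C := ⟨_, rfl⟩
  have hD : IsClosed D := by
    rw [hDd]
    exact isClosed_biUnion_finset fun i _ => (hC.compact.image (hFc i)).isClosed
  have hDmem : ∀ i, 1 ≤ i → i < P → ∀ x ∈ C, F^[i] x ∈ D := by
    intro i h1 h2 x hx
    rw [hDd]
    simp only [mem_iUnion, Finset.mem_Ico]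
    exact ⟨i, ⟨h1, h2⟩, _, hx, rfl⟩
  have hdis : Disjoint D C := by
    rw [Set.disjoint_left]
    intro w hw1 hw2
    rw [hDd] at hw1
    simp only [mem_iUnion, Finset.mem_Ico] at hw1
    obtain ⟨i, ⟨hi1, hi2⟩, x, hx, rfl⟩ := hw1
    exact hC.dis i hi1 hi2 x hx hw2
  -- the cut-off function
  obtain ⟨O₁, hO₁, hCO₁, hO₁O, hO₁c⟩ := exists_open_between_and_isCompact_closure hC.compact
    hψ.isOpen hCO
  have hD' : IsClosed (D ∪ O₁ᶜ) := hD.union hO₁.isClosed_compl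
  have hdisj : Disjoint (D ∪ O₁ᶜ) C := by
    rw [Set.disjoint_union_left]
    exact ⟨hdis, Set.disjoint_left.2 fun w hw hwC => hw (hCO₁ hwC)⟩
  obtain ⟨f, hf0, hf1, -⟩ := exists_contMDiffMap_zero_one_of_isClosed (n := ⊤) (𝓡 n) hD'
    hC.compact.isClosed hdisj
  have hfs : ContMDiff (𝓡 n) 𝓘(ℝ, ℝ) ∞ (f : N → ℝ) := f.contMDiff
  have hf0' : ∀ w ∈ O, w ∉ closure O₁ → f w = 0 := by
    intro w _ hwK
    exact hf0 (Or.inr fun h1 => hwK (subset_closure h1))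
  have hfC : ∀ w ∈ C, f w = 1 := fun w hw => hf1 hw
  have hfD : ∀ w ∈ D, f w = 0 := fun w hw => hf0 (Or.inl hw)
  -- translations
  obtain ⟨T, ε₁, hε₁, hT0, hTf, hT⟩ := rho_flow hψ hfs hO₁c hO₁O hf0' r
  have hTC : ∀ t, |t| < ε₁ → ∀ y ∈ C, T t y = ψ t y := by
    intro t ht y hy
    rw [(hT t ht).1 y (hCO hy), hfC y hy, one_mul]
  have hTD : ∀ t, |t| < ε₁ → ∀ y ∈ D, T t y = y := by
    intro t ht y hy
    by_cases hyO : y ∈ O
    · rw [(hT t ht).1 y hyO, hfD y hy, zero_mul, hψ.zero y hyO]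
    · exact (hT t ht).2 y hyO
  have hF0 : (T 0).trans F = F := by
    rw [hT0]
    ext y
    rfl
  obtain ⟨ε₂, hε₂, hT2⟩ := fam_mem r hr (fun t : ℝ => (T t).trans F) (fam_trans hTf (fam_const F)) z U
    hU (by rw [hF0]; exact hFU)
  -- the fraction
  obtain ⟨q, s, p, hq, hs, hpq, hqs⟩ := choice hret α (min ε₁ ε₂) (lt_min hε₁ hε₂)
  obtain ⟨t, ht⟩ : ∃ t : ℝ, t = (p : ℝ) / q - α := ⟨_, rfl⟩
  rw [← ht] at hpq
  have ht1 : |t| < ε₁ := hpq.trans_le (min_le_left _ _)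
  have hFt : (T t).trans F ∈ U := hT2 t (by rw [Real.norm_eq_abs]; exact hpq.trans_le (min_le_right _ _))
  have hq0 : (0 : ℝ) < q := by
    have : 0 < q := by omega
    exact_mod_cast this
  have hq1 : (1 : ℝ) ≤ q := by exact_mod_cast hq
  -- the Arnold perturbations
  obtain ⟨ρ₂, hρ₂⟩ : ∃ ρ₂ : N → ℝ, ρ₂ = fun y => f y * ((a y * (starRingEnd ℂ) (a z)) ^ q).re := ⟨_, rfl⟩
  have hρ₂s : ContMDiff (𝓡 n) 𝓘(ℝ, ℝ) ∞ ρ₂ := by
    rw [hρ₂]
    have h1 : ContDiff ℝ ∞ (fun w : ℂ => ((w * (starRingEnd ℂ) (a z)) ^ q).re) :=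
      Complex.reCLM.contDiff.comp ((contDiff_id.mul contDiff_const).pow q)
    exact hfs.mul (h1.contMDiff.comp hC.smooth)
  obtain ⟨Q, ε₃, hε₃, hQ0, hQf, hQ⟩ := rho_flow hψ hρ₂s hO₁c hO₁O
    (fun w hw hwK => by rw [hρ₂]; show f w * _ = 0; rw [hf0' w hw hwK, zero_mul]) r
  have hQD : ∀ t, |t| < ε₃ → ∀ y ∈ D, Q t y = y := by
    intro t ht y hy
    by_cases hyO : y ∈ O
    · rw [(hQ t ht).1 y hyO, hρ₂]
      show ψ (f y * _ * t) y = y
      rw [hfD y hy, zero_mul, zero_mul, hψ.zero y hyO]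
    · exact (hQ t ht).2 y hyO
  have hQC : ∀ t, |t| < ε₃ → ∀ y ∈ C, ∀ θ : ℝ, a y = cis θ * a z →
      Q t y = ψ (t * Real.cos (2 * Real.pi * q * θ)) y := by
    intro t ht y hy θ hθ
    rw [(hQ t ht).1 y (hCO hy), hρ₂]
    show ψ (f y * _ * t) y = _
    rw [hfC y hy, one_mul, hθ, mul_assoc, Pool.Agent.W54.SC.conj_mul_self _ (hC.norm z hz), mul_one]
    have h1 : cis θ ^ q = cis (q * θ) := by
      unfold cis
      rw [← Complex.exp_nat_mul]
      congr 1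
      push_cast
      ring
    have h2 : (cis (q * θ)).re = Real.cos (2 * Real.pi * q * θ) := by
      unfold cis
      have : 2 * Real.pi * Complex.I * ((q * θ : ℝ) : ℂ) =
          ((2 * Real.pi * q * θ : ℝ) : ℂ) * Complex.I := by
        push_cast
        ring
      rw [this, Complex.exp_ofReal_mul_I_re]
    rw [h1, h2, mul_comm]
  let K₁ : ℝ × ℝ → DiffM n N r := fun e => (Q e.2).trans (T e.1)
  have hK₁f : IsFam n N r K₁ :=
    fam_trans (fam_linear hQf (ContinuousLinearMap.snd ℝ ℝ ℝ))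
      (fam_linear hTf (ContinuousLinearMap.fst ℝ ℝ ℝ))
  have hK₁0 : K₁ 0 = Diffeomorph.refl (𝓡 n) N r := by
    show (Q 0).trans (T 0) = _
    rw [hQ0, hT0]
    ext y
    rfl
  let H : ℝ × ℝ → DiffM n N r := fun e => (iter K₁ s e).trans ((T t).trans F)
  have hHf : IsFam n N r H := fam_trans (fam_iter hK₁f s) (fam_const _)
  have hH0 : H 0 = (T t).trans F := by
    show (iter K₁ s 0).trans _ = _
    rw [iter_zero hK₁0]
    ext y
    rfl
  obtain ⟨χ, hχ⟩ := Pool.Agent.W699.SC.gc n N z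
  obtain ⟨k, hk, κ2, hκ2, hCL⟩ := t_CL n N r hr (ℝ × ℝ) H hHf χ z hχ U hU (by rw [hH0]; exact hFt)
  -- the parameter of the Arnold family
  obtain ⟨κ, hκ0, hκ1, hκ2', hκ3, hκ4⟩ : ∃ κ : ℝ, 0 < κ ∧ κ ≤ 1 / 16 ∧ 2 * κ < κ2 ∧ 2 * κ < ε₁ ∧
      κ < ε₃ := by
    refine ⟨min (1 / 16) (min (κ2 / 3) (min (ε₁ / 3) (ε₃ / 2))), by positivity, min_le_left _ _, ?_, ?_,
      ?_⟩
    · have := (min_le_right (1 / 16) (min (κ2 / 3) (min (ε₁ / 3) (ε₃ / 2)))).trans (min_le_left _ _)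
      linarith
    · have := ((min_le_right (1 / 16) (min (κ2 / 3) (min (ε₁ / 3) (ε₃ / 2)))).trans
        (min_le_right _ _)).trans (min_le_left _ _)
      linarith
    · have := ((min_le_right (1 / 16) (min (κ2 / 3) (min (ε₁ / 3) (ε₃ / 2)))).trans
        (min_le_right _ _)).trans (min_le_right _ _)
      linarith
  have hac : Continuous a := hC.smooth.continuous
  -- the radius
  have hδ : 0 < 4 * (κ / q) := by positivity
  obtain ⟨ρ, hρ0, hρκ, hρa⟩ : ∃ ρ : ℝ, 0 < ρ ∧ ρ < κ2 ∧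
      ∀ y ∈ χ.source, ‖χ y‖ < 3 * ρ → ‖a y - a z‖ < 4 * (κ / q) ∧ y ∉ D := by
    have h5 : ContinuousAt χ.symm (0 : V n) := by
      apply χ.continuousAt_symm
      exact hχ.ball (mem_closedBall_self (by norm_num))
    have hz0 : χ.symm (0 : V n) = z := by
      rw [← hχ.zero]
      exact χ.left_inv hχ.src
    have hc : Tendsto χ.symm (𝓝 (0 : V n)) (𝓝 z) := by
      have := h5.tendsto
      rwa [hz0] at this
    have hev1 : ∀ᶠ y in 𝓝 z, ‖a y - a z‖ < 4 * (κ / q) := by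
      have h6 : Tendsto (fun y => ‖a y - a z‖) (𝓝 z) (𝓝 ‖a z - a z‖) :=
        ((hac.tendsto z).sub_const _).norm
      rw [sub_self, norm_zero] at h6
      exact h6.eventually (gt_mem_nhds hδ)
    have hev2 : ∀ᶠ y in 𝓝 z, y ∉ D :=
      hD.isOpen_compl.mem_nhds (Set.disjoint_right.1 hdis hz)
    have hev := hc.eventually (hev1.and hev2)
    rw [Metric.eventually_nhds_iff] at hev
    obtain ⟨ε, hε, hε2⟩ := hev
    refine ⟨min (ε / 3) (κ2 / 2), lt_min (by linarith) (by linarith),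
      (min_le_right _ _).trans_lt (by linarith), ?_⟩
    intro y hy hy2
    have h5 : ‖χ y‖ < ε := by
      have : min (ε / 3) (κ2 / 2) ≤ ε / 3 := min_le_left _ _
      linarith
    have h6 := hε2 (y := χ y) (by rw [dist_zero_right]; exact h5)
    rwa [χ.left_inv hy] at h6
  obtain ⟨ε, hε0, hε1, hε2, hε3⟩ : ∃ ε : ℝ, 0 < ε ∧ ε ≤ ρ ∧ ε ≤ κ2 ∧ 2 * ε ≤ κ2 * ρ ^ k := by
    have h5 : 0 < κ2 * ρ ^ k / 2 := by positivity
    refine ⟨min (min ρ κ2) (κ2 * ρ ^ k / 2), lt_min (lt_min hρ0 hκ2) h5,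
      (min_le_left _ _).trans (min_le_left _ _), (min_le_left _ _).trans (min_le_right _ _), ?_⟩
    have := min_le_right (min ρ κ2) (κ2 * ρ ^ k / 2)
    linarith
  have hW0 : {y : N | y ∈ χ.source ∧ ‖χ y‖ < ε} ∈ 𝓝 z := by
    have h5 : χ.source ∈ 𝓝 z := χ.open_source.mem_nhds hχ.src
    have h6 : ContinuousAt (fun y => ‖χ y‖) z := (χ.continuousAt hχ.src).norm
    have h7 : ∀ᶠ y in 𝓝 z, ‖χ y‖ < ε := by
      have h8 := h6.tendsto
      rw [hχ.zero, norm_zero] at h8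
      exact h8.eventually (gt_mem_nhds hε0)
    filter_upwards [h5, h7] with y hy1 hy2
    exact ⟨hy1, hy2⟩
  have hW : (Lv ψ a z) ⁻¹' {y : N | y ∈ χ.source ∧ ‖χ y‖ < ε} ∈ 𝓝 z := Lv_tendsto hC hz hW0
  obtain ⟨M0, hM0⟩ := exists_nat_ge (1 / κ)
  obtain ⟨M, hMM0, hM1, ⟨l, hl, hc⟩, y, hy, hyW1, t₁, hyW2⟩ := hqs _ hW M0
  have hMκ : 1 / κ ≤ (M : ℝ) := hM0.trans (by exact_mod_cast hMM0)
  obtain ⟨σ, hσ1, hσ2, hgM, hgi⟩ := circ2 hκ0 hκ1 hMκ hq hl hc
  -- the perturbation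
  set e : ℝ × ℝ := (σ / q, κ / q) with he
  have he1 : |σ / q| ≤ 2 * κ := by
    rw [abs_of_nonneg (by have : 0 ≤ σ := by linarith
                          positivity)]
    refine (div_le_self (by linarith) hq1).trans hσ2
  have he2 : |κ / q| ≤ κ := by
    rw [abs_of_nonneg (by positivity)]
    exact div_le_self hκ0.le hq1
  have hen : ‖e‖ < κ2 := by
    rw [he, Prod.norm_def, Real.norm_eq_abs, Real.norm_eq_abs]
    exact max_lt (he1.trans_lt hκ2') (he2.trans_lt (by linarith))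
  have hK₁C : ∀ w ∈ C, ∀ θ : ℝ, a w = cis θ * a z → K₁ e w = ψ (hh q σ κ θ - θ) w := by
    intro w hw θ hθ
    show T (σ / q) (Q (κ / q) w) = _
    rw [hQC _ (he2.trans_lt hκ4) w hw θ hθ, hTC _ (he1.trans_lt hκ3) _ (hC.inv _ _ hw),
      ← hC.add _ _ hw]
    congr 1
    unfold hh
    ring
  have hK₁D : ∀ w ∈ D, K₁ e w = w := by
    intro w hw
    show T (σ / q) (Q (κ / q) w) = _
    rw [hQD _ (he2.trans_lt hκ4) w hw, hTD _ (he1.trans_lt hκ3) w hw]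
  have hKC : ∀ (m : ℕ) (w : N), w ∈ C → ∀ θ : ℝ, a w = cis θ * a z →
      iter K₁ m e w = ψ ((hh q σ κ)^[m] θ - θ) w := by
    intro m
    induction m with
    | zero =>
      intro w hw θ _
      show w = ψ (θ - θ) w
      rw [sub_self, hC.zero hw]
    | succ m ih =>
      intro w hw θ hθ
      show iter K₁ m e (K₁ e w) = _
      rw [hK₁C w hw θ hθ, ih _ (hC.inv _ _ hw) (hh q σ κ θ) ?_, ← hC.add _ _ hw]
      · congr 1
        rw [Function.iterate_succ_apply]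
        ring
      · rw [hC.equiv' _ hw, hθ, ← mul_assoc, ← cis_add, sub_add_cancel]
  have hKD : ∀ (m : ℕ) (w : N), w ∈ D → iter K₁ m e w = w := by
    intro m
    induction m with
    | zero => intro w _; rfl
    | succ m ih =>
      intro w hw
      show iter K₁ m e (K₁ e w) = _
      rw [hK₁D w hw, ih w hw]
  have hHD : ∀ w ∈ D, H e w = F w := by
    intro w hw
    show F (T t (iter K₁ s e w)) = F w
    rw [hKD s w hw, hTD t ht1 w hw]
  have hHC : ∀ w ∈ C, ∀ θ : ℝ, a w = cis θ * a z →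
      H e w = F (ψ ((hh q σ κ)^[s] θ - θ + t) w) := by
    intro w hw θ hθ
    show F (T t (iter K₁ s e w)) = _
    rw [hKC s w hw θ hθ, hTC t ht1 _ (hC.inv _ _ hw), ← hC.add _ _ hw, add_comm t]
  have hHi : ∀ w ∈ C, ∀ θ : ℝ, a w = cis θ * a z → ∀ j : ℕ, 1 ≤ j → j ≤ P →
      (H e)^[j] w = F^[j] (ψ ((hh q σ κ)^[s] θ - θ + t) w) := by
    intro w hw θ hθ j hj1
    induction j with
    | zero => omega
    | succ j ih =>
      intro hjP
      rcases Nat.eq_zero_or_pos j with h0 | h0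
      · subst h0
        exact hHC w hw θ hθ
      · rw [Function.iterate_succ_apply', ih h0 (by omega), Function.iterate_succ_apply' F,
          hHD _ (hDmem j h0 (by omega) _ (hC.inv _ _ hw))]
  -- the orbit
  obtain ⟨y₀, hy₀⟩ : ∃ y₀ : N, y₀ = Lv ψ a z y := ⟨_, rfl⟩
  have hy₀C : y₀ ∈ C := by rw [hy₀]; exact Lv_mem hC hy
  have hay₀ : a y₀ = a z := by rw [hy₀]; exact a_Lv hC hz hy
  have hFC : ∀ (i : ℕ), ∀ w ∈ C, F^[P * i] w ∈ C := fun i w hw => hC.mapsi i hw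
  have hFψ : ∀ (i : ℕ) (x : ℝ), ∀ w ∈ C, F^[P * i] (ψ x w) = ψ x (F^[P * i] w) :=
    fun i x w hw => hC.commi i x hw
  -- the level of the last point
  have hyW3 : Lv ψ a z (F^[P * M] y) = Lv ψ a z (ψ t₁ (F^[P * M] y)) := by
    have hw := hFC M y hy
    have h1 := a_Lv hC hz (hC.inv t₁ _ hw)
    have h2 : Lv ψ a z (ψ t₁ (F^[P * M] y)) = ψ (-(Complex.arg (a (ψ t₁ (F^[P * M] y)) *
        (starRingEnd ℂ) (a z)) / (2 * Real.pi)) + t₁) (F^[P * M] y) := by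
      rw [hC.add _ _ hw]
      rfl
    rw [h2] at h1 ⊢
    exact (Lv_unique hC hz hw h1).symm
  have hyW2' : Lv ψ a z (F^[P * M] y) ∈ {y : N | y ∈ χ.source ∧ ‖χ y‖ < ε} := by
    rw [hyW3]
    exact hyW2
  have haF : ∀ i : ℕ, ∀ w ∈ C, a (F^[P * i] w) = cis (i * α) * a w := by
    intro i
    induction i with
    | zero =>
      intro w _
      show a w = _
      rw [Nat.cast_zero, zero_mul, cis_zero, one_mul]
    | succ i ih =>
      intro w hw
      rw [Nat.mul_succ, add_comm, Function.iterate_add_apply, hC.rot' (hFC i w hw), ih w hw,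
        ← mul_assoc, ← cis_add]
      congr 2
      push_cast
      ring
  have horb : ∀ i : ℕ, (H e)^[P * i] y₀ = ψ ((gg q s p σ κ)^[i] 0 - i * α) (F^[P * i] y₀) := by
    intro i
    induction i with
    | zero =>
      show y₀ = ψ (0 - (0 : ℕ) * α) y₀
      rw [Nat.cast_zero, zero_mul, sub_self, hC.zero hy₀C]
    | succ i ih =>
      have hwC := hFC i y₀ hy₀C
      have hlev : a (ψ ((gg q s p σ κ)^[i] 0 - i * α) (F^[P * i] y₀)) =
          cis ((gg q s p σ κ)^[i] 0) * a z := by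
        rw [hC.equiv' _ hwC, haF i y₀ hy₀C, hay₀, ← mul_assoc, ← cis_add, sub_add_cancel]
      have eF : F^[P * (i + 1)] y₀ = F^[P] (F^[P * i] y₀) := by
        rw [Nat.mul_succ, add_comm, Function.iterate_add_apply]
      have eH : (H e)^[P * (i + 1)] y₀ = (H e)^[P] ((H e)^[P * i] y₀) := by
        rw [Nat.mul_succ, add_comm, Function.iterate_add_apply]
      rw [eF, eH, ih, hHi _ (hC.inv _ _ hwC) _ hlev P hC.pos le_rfl, ← hC.add _ _ hwC,
        hC.comm _ _ hwC]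
      congr 1
      have hg : (gg q s p σ κ)^[i + 1] 0 = gg q s p σ κ ((gg q s p σ κ)^[i] 0) :=
        Function.iterate_succ_apply' _ _ _
      rw [hg]
      show (hh q σ κ)^[s] ((gg q s p σ κ)^[i] 0) - (gg q s p σ κ)^[i] 0 + t +
        ((gg q s p σ κ)^[i] 0 - i * α) =
        (hh q σ κ)^[s] ((gg q s p σ κ)^[i] 0) + p / q - ((i + 1 : ℕ) : ℝ) * α
      rw [ht]
      push_cast
      ring
  have hlevel : ∀ i : ℕ, a ((H e)^[P * i] y₀) = cis ((gg q s p σ κ)^[i] 0) * a z := by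
    intro i
    rw [horb, hC.equiv' _ (hFC i y₀ hy₀C), haF i y₀ hy₀C, hay₀, ← mul_assoc, ← cis_add,
      sub_add_cancel]
  have hHCi : ∀ i : ℕ, (H e)^[P * i] y₀ ∈ C := by
    intro i
    rw [horb]
    exact hC.inv _ _ (hFC i y₀ hy₀C)
  -- the last point
  have hlast : (H e)^[P * M] y₀ = Lv ψ a z (F^[P * M] y) := by
    have h1 : (H e)^[P * M] y₀ = ψ ((gg q s p σ κ)^[M] 0 - M * α +
        -(Complex.arg (a y * (starRingEnd ℂ) (a z)) / (2 * Real.pi))) (F^[P * M] y) := by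
      rw [horb, hC.add _ _ (hFC M y hy), ← hFψ M _ y hy, hy₀]
      rfl
    rw [h1]
    apply Lv_unique hC hz (hFC M y hy)
    rw [← h1, hlevel, hgM, cis_int, one_mul]
  refine hCL e y₀ ρ (P * M) hen ?_ ?_ hρ0 hρκ (Nat.mul_pos hC.pos hM1) ?_ ?_ ?_
  · rw [hy₀]; exact hyW1.1
  · rw [hy₀]; exact hyW1.2.trans_le hε2
  · rw [hlast]; exact hyW2'.1
  · rw [hlast, hy₀]
    calc ‖χ (Lv ψ a z (F^[P * M] y)) - χ (Lv ψ a z y)‖
        ≤ ‖χ (Lv ψ a z (F^[P * M] y))‖ + ‖χ (Lv ψ a z y)‖ := norm_sub_le _ _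
      _ < ε + ε := add_lt_add hyW2'.2 hyW1.2
      _ = 2 * ε := by ring
      _ ≤ κ2 * ρ ^ k := hε3
  · intro i hi hiM hsrc
    by_contra hcon
    push Not at hcon
    have hy₀n : ‖χ y₀‖ < ρ := by rw [hy₀]; exact hyW1.2.trans_le hε1
    have h3 : ‖χ ((H e)^[i] y₀)‖ < 3 * ρ := by
      have h4 : ‖χ ((H e)^[i] y₀)‖ ≤ ‖χ ((H e)^[i] y₀) - χ y₀‖ + ‖χ y₀‖ := by
        have := norm_add_le (χ ((H e)^[i] y₀) - χ y₀) (χ y₀)
        rwa [sub_add_cancel] at this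
      linarith
    obtain ⟨h5, h6⟩ := hρa _ hsrc h3
    have hdm := Nat.div_add_mod i P
    have hPpos : 0 < P := hC.pos
    obtain ⟨i', hi'⟩ : ∃ i' : ℕ, i' = i / P := ⟨_, rfl⟩
    obtain ⟨j, hj⟩ : ∃ j : ℕ, j = i % P := ⟨_, rfl⟩
    have hjP : j < P := by rw [hj]; exact Nat.mod_lt _ hPpos
    rw [← hi', ← hj] at hdm
    rcases Nat.eq_zero_or_pos j with hj0 | hj0
    · rw [hj0, add_zero] at hdm
      rw [← hdm, hlevel] at h5
      have h7 : ‖cis ((gg q s p σ κ)^[i'] 0) * a z - a z‖ =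
          ‖cis ((gg q s p σ κ)^[i'] 0) - 1‖ := by
        have : cis ((gg q s p σ κ)^[i'] 0) * a z - a z =
            (cis ((gg q s p σ κ)^[i'] 0) - 1) * a z := by ring
        rw [this, norm_mul, hC.norm z hz, mul_one]
      rw [h7] at h5
      have hi0 : 0 < i' := by
        rcases Nat.eq_zero_or_pos i' with h8 | h8
        · rw [h8, mul_zero] at hdm
          omega
        · exact h8
      have hiM' : i' < M := by
        rw [← hdm] at hiM
        exact lt_of_mul_lt_mul_left hiM hPpos.le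
      have h8 := cis_far (hgi i' hi0 hiM')
      linarith
    · apply h6
      have h9 : (H e)^[i] y₀ = F^[j] (ψ ((hh q σ κ)^[s] ((gg q s p σ κ)^[i'] 0) -
          (gg q s p σ κ)^[i'] 0 + t) ((H e)^[P * i'] y₀)) := by
        rw [← hdm, add_comm, Function.iterate_add_apply]
        exact hHi _ (hHCi i') _ (hlevel i') j hj0 hjP.le
      rw [h9]
      exact hDmem j hj0 hjP _ (hC.inv _ _ (hHCi i'))

theorem main (hr : 1 ≤ r) (F : DiffM n N r) (z : N)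
    (h : ∀ U : Set (DiffM n N r), IsOpen[strongTop n N r] U → F ∈ U →
      ∃ F' ∈ U, z ∈ closure {y | OnRot n N F' y}) :
    ClosableAt n N r F z := by
  apply closable_of_limit
  intro U hU hFU
  obtain ⟨F', hF', hz⟩ := h U hU hFU
  exact ⟨F', hF', closure_mono (fun y hy => closable_rot hr F' y hy) hz⟩

end Pool.Agent.V11260.PR
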